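import Pool.Agent.KMil.GenP

/-!
MP_da2a57_al (Koszulity of mod-p Galois cohomology), any prime p.
The Milnor ring of the field F modulo p is Koszul if, for a not a p-th power and b not a product of
values of `x ^ p - a y ^ p` and their inverses, the elements `n - b m`, with `n`, `m` such products or
zero, generate the group of units of F.  For fields without extensions of degree prime to p the
hypothesis is equivalent to cohomological dimension at most two.
-/

set_option autoImplicit false

namespace Pool.Agent.Results.MP_da2a57_al.BinaryNormForms

universe u

open Pool.Agent.KMil

theorem result (p : ℕ) [Fact p.Prime] (F : Type u) [Field F] (H : BinaryNorms p F) :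
    IsKoszul (KMn p F) :=
  koszul_p H

end Pool.Agent.Results.MP_da2a57_al.BinaryNormForms
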