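import Pool.Agent.KMil.Three

/-!
MP_da2a57_al (Koszulity of mod-p Galois cohomology), p = 3.
If the cubic forms `(N(x) - b N(y)) - c (N(z) - b N(w))` in twelve variables, `N` the norm form of
`X ^ 3 - a`, have nontrivial zeros over the field F (for F containing the cube roots of unity: if the
third mod 3 Galois cohomology group of F vanishes), then the Milnor ring of F modulo 3 is Koszul.
-/

set_option autoImplicit false

namespace Pool.Agent.Results.MP_da2a57_al.CubicForms

universe u

open Pool.Agent.KMil

theorem result (F : Type u) [Field F]
    (H : ∀ a b c : Fˣ, ∃ x : Fin 12 → F, x ≠ 0 ∧ cub12 (a : F) b c x = 0) :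
    IsKoszul (KMn 3 F) :=
  koszul_three H

end Pool.Agent.Results.MP_da2a57_al.CubicForms
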