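import Pool.Agent.KRc.Cor

/-!
MP_da2a57_al (Koszulity of mod-p Galois cohomology), rational function fields and more general
fields generated by `k(y)` and `p`-th powers.
Let `k` be a field such that for all finite extensions `E` of `k` and all `a` in `E` the symbols of
`a` and `1 - a` are dependent in degree one of the Milnor ring modulo `p` (in the precise sense below).
Then the Milnor ring modulo `p` of `F` is Koszul for `F = k(y)`, for `F = Frac(O[[y]])` if `k` is the
fraction field of the complete discrete valuation ring `O` in which `p` is invertible, and more
generally (the first two cases are instances of the third) for every field `F` that contains `k(y)`,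
in which every element is an element of `k(y)` times a `p`-th power, and in which each monic
irreducible polynomial is either a uniformizer of a discrete valuation of `F` with the same residue
field as the valuation of `k(y)`, or a constant times a `p`-th power.
Fields `k` with the hypothesis: see `Pool/Agent/KRc/Hff.lean` (finite), `Hac.lean` (algebraically
closed), `Hrl.lean` (real closed, `p = 2`), `Hco.lean` (fraction fields of complete discrete valuation
rings with such residue field and `p` invertible).
-/

set_option autoImplicit false

namespace Pool.Agent.Results.MP_da2a57_al.RationalFunctionFields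

universe u

open Pool.Agent.KMil Pool.Agent.KRc Polynomial

/-- the fields `F` over `k` of the theorem; the first two cases are instances of the third -/
inductive Adm (p : ℕ) : (k F : Type u) → [Field k] → [Field F] → Prop
  /-- the rational function field `F = k(y)` -/
  | rat (k : Type u) [Field k] : Adm p k (RatFunc k)
  /-- `F` is the fraction field of `O⟦y⟧`, `O` a complete discrete valuation ring with fraction field
  `k` in which `p` is invertible -/
  | ser (O : Type u) [CommRing O] [IsDomain O] [IsDiscreteValuationRing O]
      [IsAdicComplete (IsLocalRing.maximalIdeal O) O] (hp : IsUnit (p : O)) :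
      Adm p (FractionRing O) (FractionRing (PowerSeries O))
  /-- `F` contains `k(y)`, every element of `F` is an element of `k(y)` times a `p`-th power, each
  monic irreducible polynomial is good or a constant times a `p`-th power, some `y - c` is good -/
  | gen (k F : Type u) [Field k] [Field F] [Algebra (RatFunc k) F] (hF : GenF p k F)
      (hD : DichF p k F) (h1 : ∃ c : k, GoodPl F (X - C c)) : Adm p k F

theorem result (p : ℕ) [Fact p.Prime] (k F : Type u) [Field k] [Field F]
    (hE : ∀ (E : Type u) [Field E] [Algebra k E] [FiniteDimensional k E] (a : E), a ≠ 0 → a ≠ 1 →
      (∃ i j : ℕ, ¬ (p ∣ i ∧ p ∣ j) ∧ ∃ c : E, (-1) ^ (i * j) * (a ^ i * (1 - a) ^ j) = c ^ p) ∨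
      (p = 2 ∧ (∃ s t : k, s ^ 2 + t ^ 2 = -1) ∧ (∃ c : E, -a = c ^ 2) ∧ ∃ c : E, a - 1 = c ^ 2))
    (hF : Adm p k F) : IsKoszul (KMn p F) := by
  cases hF with
  | rat => exact cor_ratFunc p k hE
  | ser O hp => exact koszul_W O p hp hE
  | gen k F hF hD h1 => exact koszul_field p hF hD h1 hE

end Pool.Agent.Results.MP_da2a57_al.RationalFunctionFields
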