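import Pool.Agent.KMil.VFin

/-!
MP_da2a57_al (Koszulity of mod-p Galois cohomology), p = 2.
If every three-fold Pfister form over `E = F(√-1)` is isotropic (equivalently, the third mod 2
Galois cohomology group of `F(√-1)` vanishes, i.e. the virtual cohomological 2-dimension of `F` is
at most two), then the Milnor ring of `F` modulo 2, which is the mod 2 Galois cohomology ring of
`F` by the norm residue theorem, is Koszul.
-/

set_option autoImplicit false

namespace Pool.Agent.Results.MP_da2a57_al.VirtualDimensionTwo

universe u v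

open Pool.Agent.KMil

theorem result (F : Type u) [Field F] (E : Type v) [Field E] [Algebra F E] (i : E)
    (h2 : (2 : F) ≠ 0) (hi : i ^ 2 = -1)
    (hE : ∀ e : E, ∃ x y : F, e = algebraMap F E x + algebraMap F E y * i)
    (H : ∀ a b c : Eˣ, ∃ x : Fin 8 → E, x ≠ 0 ∧ pf3 (a : E) b c x = 0) :
    IsKoszul (KMn 2 F) :=
  koszul_V h2 (HV_of_pf3 h2 i hi hE H)

end Pool.Agent.Results.MP_da2a57_al.VirtualDimensionTwo
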